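import Pool.Agent.Lib_helper49.INS.Fin

set_option autoImplicit false

/-! # Commuting pairs in the radical of `End(P)`: the count is not always a polynomial

Definitions (file `Lib_helper49/INS/Defs.lean`): a finite quiver is a finite type `V` of vertices
with finite types `v ⟶ w` of arrows; `Quiver.Path v w` is the type of paths from `v` to `w`;
`PSpace K d v` is the space of `P_{Q,d} = ⊕_i P(i)^{d i}` at `v`, with basis the triples
`(i, k, p)`, `k < d i`, `p` a path from `i` to `v`; `PMap` is the map along an arrow;
`EndRing K d` is the ring of endomorphisms of this representation, and `count K d` is the number of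
commuting pairs of elements of its Jacobson radical. -/

namespace Pool.Agent.Results.MP_1f3cc2_al.NonPolynomialCount

open Pool.Agent.Lib_helper49.INS

/-- For every infinite set `S` of odd prime powers there are an acyclic quiver with 45 vertices, at
most 40 arrows between any two vertices, and a summand vector `d ≤ 2`, such that no polynomial `f`
over `ℚ` takes the value `[Q,d]` at `q = 2` and at all large `q ∈ S`: for every `f` and every `N`
there is a finite field `K`, of order 2 or of order `> N` in `S`, with `count K d ≠ f(|K|)`. -/
theorem result (S : Set ℕ) (hS : S.Infinite) (hS1 : ∀ q ∈ S, IsPrimePow q)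
    (hS2 : ∀ q ∈ S, Odd q) :
    ∃ (V : Type) (_ : Fintype V) (_ : Quiver.{0} V) (_ : ∀ v w : V, Fintype (v ⟶ w))
      (d : V → ℕ),
      (∀ (v : V) (p : Quiver.Path v v), p = Quiver.Path.nil) ∧
      Fintype.card V = 45 ∧ (∀ v w : V, Fintype.card (v ⟶ w) ≤ 40) ∧ (∀ v : V, d v ≤ 2) ∧
      ∀ (f : Polynomial ℚ) (N : ℕ), ∃ (K : Type) (_ : Field K) (_ : Fintype K),
        (Fintype.card K = 2 ∨ Fintype.card K ∈ S ∧ N < Fintype.card K) ∧
        (count K d : ℚ) ≠ f.eval (Fintype.card K : ℚ) :=
  main S hS hS1 hS2

end Pool.Agent.Results.MP_1f3cc2_al.NonPolynomialCount
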